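import Pool.Agent.Helper69.UV.Defs
import Pool.Agent.Helper53.UG.Z6a
import Pool.Agent.Helper64.UG.Tail
import Pool.Agent.Helper60.UV.R

/-!
# UV Z6: zeros with `|β - 1/2| ≥ δ/128`

`wt · D ≤ PW (e/2 |RR|⁴ + (k D + D⁸/k⁶)/(2e))` with `e = T^(-3δ/4096)/VV`, `k = T^(δ/4096)`.
-/

set_option autoImplicit false
open MeasureTheory Set Filter Topology
open Pool.Agent.Helper57.Zeta Pool.Agent.Helper57.LH Pool.Agent.Helper57.ED Pool.Agent.Helper54.LG
open Pool.Agent.Helper69.UV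
open Pool.Agent.Helper64.UG (hasSum64 xi_le64)
open Pool.Agent.Helper53.UG (tsum_bound PW_cont PW_scale)

namespace Pool.Agent.Helper53.UV

open Classical in
/-- The sum over the zeros with `|β - 1/2| ≥ h`. -/
noncomputable def Dh (h X t : ℝ) : ℝ := ∑' ρ : ZS, mx ρ * (if |(ρ : ℂ).re - 1 / 2| < h then 0 else
    1 / (1 + zb X t ρ ^ 2))

theorem Dh_nonneg (h X t : ℝ) : 0 ≤ Dh h X t := by
  unfold Dh
  refine tsum_nonneg fun ρ => mul_nonneg (mx_nonneg _) ?_
  split_ifs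
  · exact le_rfl
  · positivity

/-- Both sides of the line, for one scale `T`. -/
theorem deep_two {h : ℝ} (hh : 0 < h) : ∃ T1 : ℝ, ∀ T, T1 ≤ T → ∀ τ : ℝ, |τ| ≤ 3 * T → ∀ Z : Finset ZS,
    (∀ ρ ∈ Z, h ≤ |(ρ : ℂ).re - 1 / 2|) →
    ∑ ρ ∈ Z, mx ρ * PW T ((ρ : ℂ).im - τ) ≤ Real.log T / Real.pi * T ^ (-(h / 4)) := by
  classical
  have hpi := Real.pi_pos
  obtain ⟨Y, hY, hD⟩ := deep (K := 3) (ε := 1) (by norm_num) one_pos
  obtain ⟨T1, hT1⟩ := eventually_atTop.mp hD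
  refine ⟨max (max T1 (Real.exp (2 * Real.pi * Y / h))) 3, ?_⟩
  intro T hT τ hτ Z hZ
  have hTa : T1 ≤ T := (le_max_left _ _).trans ((le_max_left _ _).trans hT)
  have hTb : Real.exp (2 * Real.pi * Y / h) ≤ T := (le_max_right _ _).trans ((le_max_left _ _).trans hT)
  have hT3 : 3 ≤ T := (le_max_right _ _).trans hT
  have hT0 : 0 < T := by linarith
  have hL : 0 < Real.log T := Real.log_pos (by linarith)
  have hLY : 2 * Real.pi * Y ≤ Real.log T * h := by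
    have : 2 * Real.pi * Y / h ≤ Real.log T := by rw [Real.le_log_iff_exp_le hT0]; exact hTb
    rwa [div_le_iff₀ hh] at this
  have hD' := hT1 T hTa τ hτ
  have hone : ∀ Z' : Finset ZS, (∀ ρ ∈ Z', h ≤ (ρ : ℂ).re - 1 / 2) →
      ∑ ρ ∈ Z', mx ρ * PW T ((ρ : ℂ).im - τ) ≤ Real.log T / (2 * Real.pi) * T ^ (-(h / 4)) := by
    intro Z' hZ'
    have hyy : ∀ ρ ∈ Z', Y ≤ yy T ρ := by
      intro ρ hρ
      unfold yy
      rw [le_div_iff₀ (by positivity)]
      have h1 : Real.log T * h ≤ Real.log T * ((ρ : ℂ).re - 1 / 2) :=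
        mul_le_mul_of_nonneg_left (hZ' ρ hρ) hL.le
      linarith
    have h2 := hD' Z' hyy
    have h3 : ∀ ρ ∈ Z', mx ρ * PW T ((ρ : ℂ).im - τ) ≤ Real.log T / (2 * Real.pi) * T ^ (-(h / 4)) *
        (mx ρ * (2 * Real.pi / Real.log T * PW T ((ρ : ℂ).im - τ)) * Real.exp (Real.pi / 2 * yy T ρ)) := by
      intro ρ hρ
      have h4 : T ^ (h / 4) ≤ Real.exp (Real.pi / 2 * yy T ρ) := by
        rw [Real.rpow_def_of_pos hT0, Real.exp_le_exp]
        unfold yy
        have e : Real.pi / 2 * (Real.log T * ((ρ : ℂ).re - 1 / 2) / (2 * Real.pi)) =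
            Real.log T * (((ρ : ℂ).re - 1 / 2) / 4) := by
          field_simp
          ring
        rw [e]
        refine mul_le_mul_of_nonneg_left ?_ hL.le
        have := hZ' ρ hρ
        linarith
      have hp := PW_pos hT0 ((ρ : ℂ).im - τ)
      have hm := mx_nonneg (ρ : ℂ)
      have h5 : 1 ≤ T ^ (-(h / 4)) * Real.exp (Real.pi / 2 * yy T ρ) := by
        have h6 : T ^ (-(h / 4)) * T ^ (h / 4) = 1 := by
          rw [← Real.rpow_add hT0, neg_add_cancel, Real.rpow_zero]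
        calc (1:ℝ) = T ^ (-(h / 4)) * T ^ (h / 4) := h6.symm
          _ ≤ _ := by gcongr
      calc mx ρ * PW T ((ρ : ℂ).im - τ) = mx ρ * PW T ((ρ : ℂ).im - τ) * 1 := by ring
        _ ≤ mx ρ * PW T ((ρ : ℂ).im - τ) * (T ^ (-(h / 4)) * Real.exp (Real.pi / 2 * yy T ρ)) := by gcongr
        _ = _ := by
            have hLn : Real.log T ≠ 0 := hL.ne'
            field_simp
    calc ∑ ρ ∈ Z', mx ρ * PW T ((ρ : ℂ).im - τ)
        ≤ ∑ ρ ∈ Z', Real.log T / (2 * Real.pi) * T ^ (-(h / 4)) *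
          (mx ρ * (2 * Real.pi / Real.log T * PW T ((ρ : ℂ).im - τ)) * Real.exp (Real.pi / 2 * yy T ρ)) :=
          Finset.sum_le_sum h3
      _ = Real.log T / (2 * Real.pi) * T ^ (-(h / 4)) *
          ∑ ρ ∈ Z', (mx ρ * (2 * Real.pi / Real.log T * PW T ((ρ : ℂ).im - τ)) * Real.exp (Real.pi / 2 * yy T ρ)) := by
          rw [Finset.mul_sum]
      _ ≤ Real.log T / (2 * Real.pi) * T ^ (-(h / 4)) * 1 := by gcongr
      _ = _ := by ring
  have h1 := hone (Z.filter fun ρ : ZS => 1 / 2 ≤ (ρ : ℂ).re) (by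
    intro ρ hρ
    rw [Finset.mem_filter] at hρ
    have := hZ ρ hρ.1
    rwa [abs_of_nonneg (by linarith [hρ.2])] at this)
  have h2 := hone ((Z.filter fun ρ : ZS => ¬ 1 / 2 ≤ (ρ : ℂ).re).map refl.toEmbedding) (by
    intro σ hσ
    rw [Finset.mem_map] at hσ
    obtain ⟨ρ, hρ, rfl⟩ := hσ
    rw [Finset.mem_filter, not_le] at hρ
    have := hZ ρ hρ.1
    rw [abs_of_neg (by linarith [hρ.2])] at this
    rw [Equiv.coe_toEmbedding, refl_re]
    linarith)
  rw [Finset.sum_map] at h2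
  have h3 : ∑ ρ ∈ Z.filter (fun ρ : ZS => ¬ 1 / 2 ≤ (ρ : ℂ).re),
      mx (refl.toEmbedding ρ : ZS) * PW T (((refl.toEmbedding ρ : ZS) : ℂ).im - τ) =
      ∑ ρ ∈ Z.filter (fun ρ : ZS => ¬ 1 / 2 ≤ (ρ : ℂ).re), mx ρ * PW T ((ρ : ℂ).im - τ) := by
    refine Finset.sum_congr rfl fun ρ _ => ?_
    rw [Equiv.coe_toEmbedding, refl_mx, refl_im]
  rw [h3] at h2
  rw [← Finset.sum_filter_add_sum_filter_not Z (fun ρ : ZS => 1 / 2 ≤ (ρ : ℂ).re)]
  calc _ ≤ Real.log T / (2 * Real.pi) * T ^ (-(h / 4)) + Real.log T / (2 * Real.pi) * T ^ (-(h / 4)) :=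
        add_le_add h1 h2
    _ = _ := by field_simp; ring

/-- The mean of `Dh`. -/
theorem mDh {h : ℝ} (hh : 0 < h) : ∃ T1 : ℝ, 3 ≤ T1 ∧ ∀ T, T1 ≤ T → ∀ W X : ℝ, 1 ≤ W → W ≤ T → 1 ≤ X →
    ∀ τ u : ℝ, |τ| ≤ 2 * T → |u| ≤ T →
    Integrable (fun t => PW W (t - τ) * Dh h X (t + u)) ∧
    ∫ t, PW W (t - τ) * Dh h X (t + u) ≤ 2 * Real.log T / X * (T / W) * T ^ (-(h / 4)) := by
  classical
  have hpi := Real.pi_pos
  obtain ⟨T1, hT1⟩ := deep_two hh
  refine ⟨max T1 3, le_max_right _ _, ?_⟩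
  intro T hT W X hW1 hWT hX τ u hτ hu
  have hTa : T1 ≤ T := (le_max_left _ _).trans hT
  have hT3 : 3 ≤ T := (le_max_right _ _).trans hT
  have hT0 : 0 < T := by linarith
  have hL : 0 < Real.log T := Real.log_pos (by linarith)
  have hW0 : 0 < W := by linarith
  have hX0 : 0 < X := by linarith
  have hτu : |τ + u| ≤ 3 * T := (abs_add_le _ _).trans (by linarith)
  have e1 : ∀ t, PW W (t - τ) * Dh h X (t + u) = ∑' ρ : ZS, PW W (t - τ) *
      (mx ρ * (if |(ρ : ℂ).re - 1 / 2| < h then 0 else 1 / (1 + zb X (t + u) ρ ^ 2))) := by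
    intro t
    unfold Dh
    rw [tsum_mul_left]
  have e2 : ∀ (ρ : ZS) (t : ℝ), zb X (t + u) ρ = X * (t - ((ρ : ℂ).im - u)) := by
    intro ρ t
    unfold zb
    ring
  simp only [e1]
  refine tsum_bound ?_ ?_ ?_ ?_
  · intro ρ t
    have hp := PW_pos hW0 (t - τ)
    have hm := mx_nonneg (ρ : ℂ)
    refine mul_nonneg hp.le (mul_nonneg hm ?_)
    split_ifs
    · exact le_rfl
    · positivity
  · intro ρ
    refine (PW_cont hW0 τ).measurable.mul (Measurable.const_mul ?_ _)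
    split_ifs
    · exact measurable_const
    · simp only [e2]
      refine Continuous.measurable (Continuous.div continuous_const (by fun_prop) fun t => ?_)
      positivity
  · intro ρ
    by_cases hc : |(ρ : ℂ).re - 1 / 2| < h
    · simp only [if_pos hc, mul_zero]
      exact integrable_zero _ _ _
    · simp only [if_neg hc, e2]
      have hc := (conv_le hW0 hX0 τ ((ρ : ℂ).im - u)).1
      refine (hc.const_mul (mx ρ)).congr (ae_of_all _ fun t => ?_)
      simp only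
      ring
  · intro Z
    have hone : ∀ ρ ∈ Z, ∫ t, PW W (t - τ) *
        (mx ρ * (if |(ρ : ℂ).re - 1 / 2| < h then 0 else 1 / (1 + zb X (t + u) ρ ^ 2))) ≤
        if h ≤ |(ρ : ℂ).re - 1 / 2| then 2 * Real.pi / X * (T / W) *
          (mx ρ * PW T ((ρ : ℂ).im - (τ + u))) else 0 := by
      intro ρ _
      by_cases hc : |(ρ : ℂ).re - 1 / 2| < h
      · rw [if_neg (not_le.mpr hc)]
        simp only [if_pos hc, mul_zero, integral_zero]
        exact le_rfl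
      · rw [if_pos (not_lt.mp hc)]
        simp only [if_neg hc, e2]
        have hc := (conv_le hW0 hX0 τ ((ρ : ℂ).im - u)).2
        have e3 : ∀ t, PW W (t - τ) * (mx ρ * (1 / (1 + (X * (t - ((ρ : ℂ).im - u))) ^ 2))) =
            mx ρ * (PW W (t - τ) * (1 / (1 + (X * (t - ((ρ : ℂ).im - u))) ^ 2))) := by
          intro t; ring
        simp only [e3]
        rw [integral_const_mul]
        have hm := mx_nonneg (ρ : ℂ)
        have hp := PW_pos hT0 ((ρ : ℂ).im - (τ + u))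
        have hp2 := PW_pos hW0 ((ρ : ℂ).im - u - τ)
        have h1 : 1 / (W * X) ≤ 1 := by
          rw [div_le_one (by positivity)]
          nlinarith
        have h2 := PW_scale hW0 hWT ((ρ : ℂ).im - u - τ)
        rw [show (ρ : ℂ).im - u - τ = (ρ : ℂ).im - (τ + u) by ring] at h2
        rw [show (ρ : ℂ).im - u - τ = (ρ : ℂ).im - (τ + u) by ring] at hc hp2
        calc mx ρ * ∫ t, PW W (t - τ) * (1 / (1 + (X * (t - ((ρ : ℂ).im - u))) ^ 2))
            ≤ mx ρ * (Real.pi / X * (1 + 1 / (W * X)) * PW W ((ρ : ℂ).im - (τ + u))) := by gcongr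
          _ ≤ mx ρ * (Real.pi / X * (1 + 1) * (T / W * PW T ((ρ : ℂ).im - (τ + u)))) := by gcongr
          _ = _ := by ring
    refine (Finset.sum_le_sum hone).trans ?_
    rw [← Finset.sum_filter, ← Finset.mul_sum]
    have h4 := hT1 T hTa (τ + u) hτu (Z.filter fun ρ : ZS => h ≤ |(ρ : ℂ).re - 1 / 2|)
      (fun ρ hρ => (Finset.mem_filter.mp hρ).2)
    have e4 : 2 * Real.pi / X * (T / W) * (Real.log T / Real.pi * T ^ (-(h / 4))) =
        2 * Real.log T / X * (T / W) * T ^ (-(h / 4)) := by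
      field_simp
    rw [← e4]
    gcongr

theorem Dh_le : ∃ C : ℝ, 0 < C ∧ ∀ h X t : ℝ, 1 ≤ X → Dh h X t ≤ C * (1 + Real.log (4 + |t|)) := by
  obtain ⟨C, hC, hb⟩ := xi_le64
  refine ⟨4 * (C + 1), by linarith, fun h X t hX => ?_⟩
  have hs := hasSum64 (B := 2) (by norm_num) t
  have hlog : 0 ≤ Real.log (4 + |t|) := Real.log_nonneg (by linarith [abs_nonneg t])
  unfold Dh
  refine tsum_le_of_sum_le' (by positivity) fun Z => ?_
  have h1 : ∀ ρ ∈ Z, mx (ρ : ZS) * (if |(ρ : ℂ).re - 1 / 2| < h then 0 else 1 / (1 + zb X t ρ ^ 2)) ≤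
      4 * (mx ρ * ((2 - (ρ : ℂ).re) / ((2 - (ρ : ℂ).re) ^ 2 + (t - (ρ : ℂ).im) ^ 2))) := by
    intro ρ _
    have hm := mx_nonneg (ρ : ℂ)
    have hβ := zs_re ρ
    set b := 2 - (ρ : ℂ).re with hbd
    have hb1 : 1 ≤ b := by rw [hbd]; linarith
    have hb2 : b ≤ 2 := by rw [hbd]; linarith
    set s := t - (ρ : ℂ).im with hsd
    have h2 : (if |(ρ : ℂ).re - 1 / 2| < h then (0:ℝ) else 1 / (1 + zb X t ρ ^ 2)) ≤ 1 / (1 + s ^ 2) := by
      split_ifs
      · positivity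
      · unfold zb
        rw [← hsd]
        refine one_div_le_one_div_of_le (by positivity) ?_
        have : s ^ 2 ≤ (X * s) ^ 2 := by
          rw [mul_pow]
          have : 1 ≤ X ^ 2 := one_le_pow₀ hX
          nlinarith [sq_nonneg s]
        linarith
    have h3 : 1 / (1 + s ^ 2) ≤ 4 * (b / (b ^ 2 + s ^ 2)) := by
      rw [← mul_div_assoc, div_le_div_iff₀ (by positivity) (by positivity)]
      nlinarith [sq_nonneg s, mul_nonneg (by linarith : 0 ≤ b - 1) (sq_nonneg s)]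
    calc mx ρ * (if |(ρ : ℂ).re - 1 / 2| < h then 0 else 1 / (1 + zb X t ρ ^ 2))
        ≤ mx ρ * (4 * (b / (b ^ 2 + s ^ 2))) := mul_le_mul_of_nonneg_left (h2.trans h3) hm
      _ = _ := by ring
  refine (Finset.sum_le_sum h1).trans ?_
  rw [← Finset.mul_sum]
  have h4 : ∑ ρ ∈ Z, mx (ρ : ZS) * ((2 - (ρ : ℂ).re) / ((2 - (ρ : ℂ).re) ^ 2 + (t - (ρ : ℂ).im) ^ 2)) ≤ _ :=
    sum_le_hasSum Z (fun ρ _ => by
      have hm := mx_nonneg (ρ : ℂ)
      have hβ := zs_re ρ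
      refine mul_nonneg hm (div_nonneg (by linarith) (by positivity))) hs
  have h5 := hb (((2 : ℝ) : ℂ) + (t : ℂ) * Complex.I) (by simp)
  have h6 : Real.log (‖((2 : ℝ) : ℂ) + (t : ℂ) * Complex.I‖ + 2) ≤ Real.log (4 + |t|) := by
    refine Real.log_le_log (by positivity) ?_
    have h7 := Complex.norm_le_abs_re_add_abs_im (((2 : ℝ) : ℂ) + (t : ℂ) * Complex.I)
    have e1 : (((2 : ℝ) : ℂ) + (t : ℂ) * Complex.I).re = 2 := by simp
    have e2 : (((2 : ℝ) : ℂ) + (t : ℂ) * Complex.I).im = t := by simp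
    rw [e1, e2, abs_of_pos (by norm_num : (0:ℝ) < 2)] at h7
    linarith
  nlinarith [mul_nonneg hC hlog]

theorem Dh_pow (n : ℕ) (hn : 0 < n) {a : ℝ} (ha : 0 < a) :
    ∃ C : ℝ, 0 < C ∧ ∀ h X t : ℝ, 1 ≤ X → Dh h X t ^ n ≤ C * (4 + |t|) ^ a := by
  obtain ⟨C, hC, hb⟩ := Dh_le
  have hnR : (0:ℝ) < n := by exact_mod_cast hn
  set b : ℝ := a / n with hbd
  have hb0 : 0 < b := by positivity
  refine ⟨(C * (1 + 1 / b)) ^ n, by positivity, fun h X t hX => ?_⟩
  have h4 : 1 ≤ 4 + |t| := by linarith [abs_nonneg t]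
  have h1 : Real.log (4 + |t|) ≤ (4 + |t|) ^ b / b := Real.log_le_rpow_div (by linarith) hb0
  have h2 : 1 ≤ (4 + |t|) ^ b := Real.one_le_rpow h4 hb0.le
  have h3 : 1 + Real.log (4 + |t|) ≤ (1 + 1 / b) * (4 + |t|) ^ b := by
    have e : (1 + 1 / b) * (4 + |t|) ^ b = (4 + |t|) ^ b + (4 + |t|) ^ b / b := by ring
    rw [e]
    linarith
  have h5 : Dh h X t ≤ C * (1 + 1 / b) * (4 + |t|) ^ b := by
    calc Dh h X t ≤ C * (1 + Real.log (4 + |t|)) := hb h X t hX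
      _ ≤ C * ((1 + 1 / b) * (4 + |t|) ^ b) := by gcongr
      _ = _ := by ring
  calc Dh h X t ^ n ≤ (C * (1 + 1 / b) * (4 + |t|) ^ b) ^ n := pow_le_pow_left₀ (Dh_nonneg h X t) h5 n
    _ = (C * (1 + 1 / b)) ^ n * ((4 + |t|) ^ b) ^ n := mul_pow _ _ _
    _ = _ := by
        congr 1
        rw [← Real.rpow_natCast, ← Real.rpow_mul (by linarith), hbd]
        congr 1
        field_simp

theorem mPoly : ∃ C : ℝ, 0 < C ∧ ∀ a : ℝ, 0 ≤ a → a ≤ 1 / 2 → ∀ T W : ℝ, 3 ≤ T → 0 < W → W ≤ T →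
    ∀ τ u : ℝ, |τ| ≤ 2 * T → |u| ≤ T →
    Integrable (fun t => PW W (t - τ) * (4 + |t + u|) ^ a) ∧
    ∫ t, PW W (t - τ) * (4 + |t + u|) ^ a ≤ C * T ^ a := by
  have hpi := Real.pi_pos
  set g : ℝ → ℝ := fun x => 2 / Real.pi * (1 + ‖x‖) ^ (-(3 / 2) : ℝ) with hg
  have hgi : Integrable g := by
    refine Integrable.const_mul ?_ _
    exact integrable_one_add_norm (by simp; norm_num)
  have hg0 : ∀ x, 0 ≤ g x := fun x => by simp only [hg]; positivity
  have hJ0 : 0 ≤ ∫ x, g x := integral_nonneg hg0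
  obtain ⟨J, hJ⟩ : ∃ J, J = ∫ x, g x := ⟨_, rfl⟩
  rw [← hJ] at hJ0
  refine ⟨7 * J + 1, by linarith, ?_⟩
  intro a ha0 ha1 T W hT hW0 hWT τ u hτ hu
  have hT0 : 0 < T := by linarith
  have hI : Integrable fun t => g ((t - τ) / W) := (hgi.comp_div hW0.ne').comp_sub_right τ
  have hV : ∫ t, g ((t - τ) / W) = W * J := by
    rw [integral_sub_right_eq_self (fun t => g (t / W)) τ, Measure.integral_comp_div, abs_of_pos hW0, smul_eq_mul, hJ]
  have hle : ∀ t, PW W (t - τ) * (4 + |t + u|) ^ a ≤ (7 * T) ^ a / W * g ((t - τ) / W) := by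
    intro t
    set x := (t - τ) / W with hx
    have hx0 := abs_nonneg x
    have e1 : t - τ = W * x := by rw [hx]; field_simp
    have h1 : 4 + |t + u| ≤ 7 * T * (1 + |x|) := by
      have h2 : |t + u| ≤ |t - τ| + |τ| + |u| := by
        calc |t + u| = |(t - τ) + τ + u| := by ring_nf
          _ ≤ |(t - τ) + τ| + |u| := abs_add_le _ _
          _ ≤ _ := by linarith [abs_add_le (t - τ) τ]
      have h3 : |t - τ| = W * |x| := by rw [e1, abs_mul, abs_of_pos hW0]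
      have h4 : W * |x| ≤ T * |x| := by gcongr
      nlinarith
    have h5 : (4 + |t + u|) ^ a ≤ (7 * T) ^ a * (1 + |x|) ^ (1 / 2 : ℝ) := by
      calc (4 + |t + u|) ^ a ≤ (7 * T * (1 + |x|)) ^ a :=
            Real.rpow_le_rpow (by positivity) h1 ha0
        _ = (7 * T) ^ a * (1 + |x|) ^ a := Real.mul_rpow (by positivity) (by positivity)
        _ ≤ _ := by
            have : (1 + |x|) ^ a ≤ (1 + |x|) ^ (1 / 2 : ℝ) :=
              Real.rpow_le_rpow_of_exponent_le (by linarith) ha1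
            gcongr
    have h6 : PW W (t - τ) ≤ 1 / W * (2 / Real.pi) * (1 + |x|) ^ (-2 : ℝ) := by
      rw [e1, Real.rpow_neg (by positivity), show (2:ℝ) = ((2:ℕ):ℝ) by norm_num, Real.rpow_natCast]
      unfold PW
      rw [show 1 / W * (((2:ℕ):ℝ) / Real.pi) * ((1 + |x|) ^ 2)⁻¹ = 2 / (W * Real.pi * (1 + |x|) ^ 2) by
        push_cast; field_simp]
      rw [div_le_div_iff₀ (by positivity) (by positivity)]
      have h7 : (1 + |x|) ^ 2 ≤ 2 * (1 + x ^ 2) := by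
        rw [← sq_abs x]
        nlinarith [sq_nonneg (1 - |x|)]
      have h8 : W * (W * Real.pi * (1 + |x|) ^ 2) ≤ W * (W * Real.pi * (2 * (1 + x ^ 2))) := by gcongr
      nlinarith
    have hp := PW_pos hW0 (t - τ)
    calc PW W (t - τ) * (4 + |t + u|) ^ a
        ≤ (1 / W * (2 / Real.pi) * (1 + |x|) ^ (-2 : ℝ)) * ((7 * T) ^ a * (1 + |x|) ^ (1 / 2 : ℝ)) := by gcongr
      _ = (7 * T) ^ a / W * (2 / Real.pi * ((1 + |x|) ^ (-2 : ℝ) * (1 + |x|) ^ (1 / 2 : ℝ))) := by ring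
      _ = _ := by
          simp only [hg]
          rw [← Real.rpow_add (by positivity), Real.norm_eq_abs]
          norm_num
  have hcont : Continuous fun t => PW W (t - τ) * (4 + |t + u|) ^ a := by
    refine (PW_cont hW0 τ).mul (Continuous.rpow_const (by fun_prop) fun t => Or.inl ?_)
    have := abs_nonneg (t + u)
    positivity
  have hint : Integrable (fun t => PW W (t - τ) * (4 + |t + u|) ^ a) := by
    refine (hI.const_mul ((7 * T) ^ a / W)).mono' hcont.aestronglyMeasurable (ae_of_all _ fun t => ?_)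
    rw [Real.norm_of_nonneg (mul_nonneg (PW_pos hW0 _).le (by positivity))]
    exact hle t
  refine ⟨hint, ?_⟩
  calc ∫ t, PW W (t - τ) * (4 + |t + u|) ^ a
      ≤ ∫ t, (7 * T) ^ a / W * g ((t - τ) / W) := integral_mono hint (hI.const_mul _) hle
    _ = (7 * T) ^ a * J := by
        rw [integral_const_mul, hV]
        field_simp
    _ ≤ (7 * T ^ a) * J := by
        have h1 : (7 * T) ^ a ≤ 7 * T ^ a := by
          rw [Real.mul_rpow (by norm_num) hT0.le]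
          have : (7:ℝ) ^ a ≤ 7 ^ (1 : ℝ) :=
            Real.rpow_le_rpow_of_exponent_le (by norm_num) (by linarith)
          rw [Real.rpow_one] at this
          gcongr
        gcongr
    _ ≤ _ := by
        have : 0 ≤ T ^ a := by positivity
        nlinarith

theorem amgm {a D e k : ℝ} (hD : 0 ≤ D) (he : 0 < e) (hk : 0 < k) :
    a * D ≤ e / 2 * a ^ 2 + 1 / (2 * e) * (k * D + D ^ 8 / k ^ 6) := by
  have h1 : a * D ≤ e / 2 * a ^ 2 + 1 / (2 * e) * D ^ 2 := by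
    have h2 : 0 ≤ (e * a - D) ^ 2 / (2 * e) := by positivity
    have h3 : (e * a - D) ^ 2 / (2 * e) = e / 2 * a ^ 2 + 1 / (2 * e) * D ^ 2 - a * D := by
      field_simp; ring
    linarith
  have h4 : D ^ 2 ≤ k * D + D ^ 8 / k ^ 6 := by
    rcases le_total D k with h | h
    · have h5 : 0 ≤ D ^ 8 / k ^ 6 := by positivity
      nlinarith
    · have h5 : D ^ 2 ≤ D ^ 8 / k ^ 6 := by
        rw [le_div_iff₀ (by positivity)]
        have h6 : k ^ 6 ≤ D ^ 6 := by gcongr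
        calc D ^ 2 * k ^ 6 ≤ D ^ 2 * D ^ 6 := by gcongr
          _ = D ^ 8 := by ring
      have : 0 ≤ k * D := by positivity
      linarith
  calc a * D ≤ e / 2 * a ^ 2 + 1 / (2 * e) * D ^ 2 := h1
    _ ≤ _ := by gcongr

theorem ex_pow {s : ℝ} (hs : 0 < s) (B : ℝ) : ∃ T2 : ℝ, ∀ T, T2 ≤ T → B ≤ T ^ s :=
  eventually_atTop.mp ((tendsto_rpow_atTop hs).eventually_ge_atTop B)

variable {δ : ℝ}

theorem mDeep_aux (hδ : 0 < δ) (hδ1 : δ ≤ 1 / 32) : ∃ c0 T0 : ℝ, ∀ T, T0 ≤ T → ∀ c, Adm δ c0 T c → ∀ v : ℝ,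
    v ^ 2 = (1 - 4 * δ) * c →
    ∀ τ u : ℝ, |τ| ≤ 2 * T → |u| ≤ T →
    Integrable (fun t => wt δ T c v τ t * Dh (δ / 128) (XX δ T c) (t + u)) ∧
    ∫ t, wt δ T c v τ t * Dh (δ / 128) (XX δ T c) (t + u) ≤ T ^ (-(δ / 2000)) * VV δ T c v := by
  obtain ⟨A, c0a, Ta, hm4⟩ := Pool.Agent.Helper60.UV.m4 hδ hδ1
  obtain ⟨c0b, Tb, hbd⟩ := Pool.Agent.Helper60.UV.rr_bd hδ hδ1
  obtain ⟨T1, hT13, hmD⟩ := mDh (h := δ / 128) (by positivity)
  set s : ℝ := δ / 8192 with hs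
  have hs0 : 0 < s := by positivity
  have hs1 : s ≤ 1 / 2 := by rw [hs]; linarith
  obtain ⟨C2, hC2, hcube⟩ := Dh_pow 8 (by norm_num) hs0
  obtain ⟨C1, hC1, hpoly⟩ := mPoly
  obtain ⟨T2, hT2⟩ := ex_pow (s := δ / 10000) (by positivity) (2 + C1 * C2 / 2)
  set A' := max A 1 with hA'
  have hA1 : 1 ≤ A' := le_max_right _ _
  refine ⟨max (max c0a c0b) 1, max (max (max Ta Tb) T1) (max (Real.exp (Real.exp (128 * A'))) T2), ?_⟩
  intro T hT c hAdm v hv τ u hτ hu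
  have hTa : Ta ≤ T := (le_max_left _ _).trans ((le_max_left _ _).trans ((le_max_left _ _).trans hT))
  have hTb : Tb ≤ T := (le_max_right _ _).trans ((le_max_left _ _).trans ((le_max_left _ _).trans hT))
  have hT1 : T1 ≤ T := (le_max_right _ _).trans ((le_max_left _ _).trans hT)
  have hTe : Real.exp (Real.exp (128 * A')) ≤ T := (le_max_left _ _).trans ((le_max_right _ _).trans hT)
  have hTC : 2 + C1 * C2 / 2 ≤ T ^ (δ / 10000) := hT2 T ((le_max_right _ _).trans ((le_max_right _ _).trans hT))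
  have hT3 : 3 ≤ T := hT13.trans hT1
  have hT0 : 0 < T := by linarith
  have hTg1 : 1 ≤ T := by linarith
  obtain ⟨hc0, hcL⟩ := hAdm
  have hca : Adm δ c0a T c := ⟨(le_max_left _ _).trans ((le_max_left _ _).trans hc0), hcL⟩
  have hcb : Adm δ c0b T c := ⟨(le_max_right _ _).trans ((le_max_left _ _).trans hc0), hcL⟩
  have hc1 : 1 ≤ c := (le_max_right _ _).trans hc0
  have hcp : 0 < c := by linarith
  obtain ⟨hm4i, hm4v⟩ := hm4 T hTa c hca v hv τ
  have hV1 : 1 ≤ VV δ T c v := (hbd T hTb c hcb v hv 0).2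
  have hLe : Real.exp (128 * A') ≤ Real.log T := by rw [Real.le_log_iff_exp_le hT0]; exact hTe
  have hL0 : 0 < Real.log T := (Real.exp_pos _).trans_le hLe
  have hll : 128 * A' ≤ Real.log (Real.log T) := by rw [Real.le_log_iff_exp_le hL0]; exact hLe
  set L := Real.log T with hLd
  have hδ2 : δ ^ 2 * L ≤ δ * L := by
    have : δ * δ ≤ 1 * δ := by gcongr; linarith
    nlinarith
  have hAc : A' * c ≤ L * s := by
    have h1 : c * (128 * A') ≤ c * Real.log L := by gcongr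
    rw [hs]
    linarith
  have hAc2 : A' * c ≤ L := by
    refine hAc.trans ?_
    nlinarith
  set V := VV δ T c v with hVd
  have hV0 : 0 < V := by linarith
  have hX : 1 ≤ XX δ T c := by
    unfold XX
    rw [le_div_iff₀ (by positivity), ← hLd]
    have h1 : 1 * c ≤ A' * c := by gcongr
    have h2 : δ ^ 2 ≤ 1 := pow_le_one₀ hδ.le (by linarith)
    have h3 : δ ^ 2 * c ≤ 1 * c := by gcongr
    linarith
  have hS : Real.exp (A' * c) ≤ T ^ s := by
    rw [Real.rpow_def_of_pos hT0, Real.exp_le_exp, ← hLd]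
    exact hAc
  have hEA : Real.exp (A * c) ≤ T ^ s :=
    (Real.exp_le_exp.mpr (mul_le_mul_of_nonneg_right (le_max_left _ _) hcp.le)).trans hS
  have hcS : c ≤ T ^ s := by
    refine le_trans ?_ hS
    have h1 := Real.add_one_le_exp (A' * c)
    have h2 : 1 * c ≤ A' * c := by gcongr
    linarith
  have hW0 : 0 < WW δ T := Real.rpow_pos_of_pos hT0 _
  have hW1 : 1 ≤ WW δ T := Real.one_le_rpow hTg1 (by linarith)
  have hWT : WW δ T ≤ T := by
    unfold WW
    calc T ^ (1 - δ / 4096) ≤ T ^ (1 : ℝ) := Real.rpow_le_rpow_of_exponent_le hTg1 (by linarith)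
      _ = T := Real.rpow_one T
  have hTW : T / WW δ T = T ^ (δ / 4096) := by
    unfold WW
    rw [div_eq_iff (Real.rpow_pos_of_pos hT0 _).ne', ← Real.rpow_add hT0]
    rw [show δ / 4096 + (1 - δ / 4096) = 1 by ring, Real.rpow_one]
  obtain ⟨hDi, hDv⟩ := hmD T hT1 (WW δ T) (XX δ T c) hW1 hWT hX τ u hτ hu
  obtain ⟨hPi, hPv⟩ := hpoly s hs0.le hs1 T (WW δ T) hT3 hW0 hWT τ u hτ hu
  set k : ℝ := T ^ (δ / 4096) with hk
  have hk0 : 0 < k := by positivity
  set E : ℝ := T ^ (-(3 * δ / 4096)) with hE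
  have hE0 : 0 < E := by positivity
  have hEk : k * E ^ 2 = T ^ (-(5 * δ / 4096)) := by
    rw [hE, hk, sq, ← Real.rpow_add hT0, ← Real.rpow_add hT0]
    congr 1; ring
  have hEk6 : E ^ 2 * k ^ 6 = 1 := by
    rw [hE, hk, ← Real.rpow_natCast, ← Real.rpow_natCast, ← Real.rpow_mul hT0.le, ← Real.rpow_mul hT0.le,
      ← Real.rpow_add hT0, show -(3 * δ / 4096) * ((2:ℕ):ℝ) + δ / 4096 * ((6:ℕ):ℝ) = 0 by push_cast; ring, Real.rpow_zero]
  have hDv' : ∫ t, PW (WW δ T) (t - τ) * Dh (δ / 128) (XX δ T c) (t + u) ≤ 2 * T ^ s * (E ^ 2 / k) := by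
    refine hDv.trans ?_
    have e1 : 2 * L / XX δ T c = 2 * (δ ^ 2 * c) := by
      unfold XX
      rw [← hLd]
      field_simp
    have e2 : k * T ^ (-(δ / 128 / 4)) = E ^ 2 / k := by
      rw [eq_div_iff hk0.ne', hE, hk, sq, ← Real.rpow_add hT0, ← Real.rpow_add hT0, ← Real.rpow_add hT0]
      congr 1; ring
    rw [e1, hTW, mul_assoc, e2]
    have h2 : δ ^ 2 ≤ 1 := pow_le_one₀ hδ.le (by linarith)
    have h3 : δ ^ 2 * c ≤ 1 * T ^ s := by gcongr
    have h4 : 0 ≤ E ^ 2 / k := by positivity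
    calc 2 * (δ ^ 2 * c) * (E ^ 2 / k) ≤ 2 * (1 * T ^ s) * (E ^ 2 / k) := by gcongr
      _ = _ := by ring
  set e : ℝ := E / V with he
  have he0 : 0 < e := by positivity
  -- the dominating function
  set F : ℝ → ℝ := fun t => e / 2 * (PW (WW δ T) (t - τ) * ‖RR δ T c v t‖ ^ 4) +
    (k / (2 * e) * (PW (WW δ T) (t - τ) * Dh (δ / 128) (XX δ T c) (t + u)) +
      C2 / (2 * e * k ^ 6) * (PW (WW δ T) (t - τ) * (4 + |t + u|) ^ s)) with hF
  have hFi : Integrable F := (hm4i.const_mul _).add ((hDi.const_mul _).add (hPi.const_mul _))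
  have hle : ∀ t, wt δ T c v τ t * Dh (δ / 128) (XX δ T c) (t + u) ≤ F t := by
    intro t
    have hD0 := Dh_nonneg (δ / 128) (XX δ T c) (t + u)
    have hp := PW_pos hW0 (t - τ)
    have h1 := amgm (a := ‖RR δ T c v t‖ ^ 2) hD0 he0 hk0
    have h2 := hcube (δ / 128) (XX δ T c) (t + u) hX
    have h3 : 1 / (2 * e) * (k * Dh (δ / 128) (XX δ T c) (t + u) + Dh (δ / 128) (XX δ T c) (t + u) ^ 8 / k ^ 6) ≤
        1 / (2 * e) * (k * Dh (δ / 128) (XX δ T c) (t + u) + (C2 * (4 + |t + u|) ^ s) / k ^ 6) := by gcongr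
    calc wt δ T c v τ t * Dh (δ / 128) (XX δ T c) (t + u) =
        PW (WW δ T) (t - τ) * (‖RR δ T c v t‖ ^ 2 * Dh (δ / 128) (XX δ T c) (t + u)) := by
          unfold wt; ring
      _ ≤ PW (WW δ T) (t - τ) * (e / 2 * (‖RR δ T c v t‖ ^ 2) ^ 2 +
          1 / (2 * e) * (k * Dh (δ / 128) (XX δ T c) (t + u) + (C2 * (4 + |t + u|) ^ s) / k ^ 6)) := by
          refine mul_le_mul_of_nonneg_left (h1.trans ?_) hp.le
          linarith
      _ = F t := by
          simp only [hF]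
          field_simp
  have hmeas : AEStronglyMeasurable (fun t => wt δ T c v τ t * Dh (δ / 128) (XX δ T c) (t + u)) := by
    have hRc : Continuous (RR δ T c v) := Pool.Agent.Helper60.UV.Rr_cont (rr δ T c v) (NR δ T)
    have h1 : AEStronglyMeasurable (fun t => ‖RR δ T c v t‖ ^ 2 *
        (PW (WW δ T) (t - τ) * Dh (δ / 128) (XX δ T c) (t + u))) :=
      ((hRc.norm.pow 2).aestronglyMeasurable).mul hDi.aestronglyMeasurable
    refine h1.congr (ae_of_all _ fun t => ?_)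
    simp only [wt]
    ring
  have hwt0 : ∀ t, 0 ≤ wt δ T c v τ t * Dh (δ / 128) (XX δ T c) (t + u) := by
    intro t
    have hD0 := Dh_nonneg (δ / 128) (XX δ T c) (t + u)
    have hp := PW_pos hW0 (t - τ)
    unfold wt
    positivity
  have hint : Integrable (fun t => wt δ T c v τ t * Dh (δ / 128) (XX δ T c) (t + u)) := by
    refine hFi.mono' hmeas (ae_of_all _ fun t => ?_)
    rw [Real.norm_of_nonneg (hwt0 t)]
    exact hle t
  refine ⟨hint, ?_⟩
  have hFv : ∫ t, F t = e / 2 * (∫ t, PW (WW δ T) (t - τ) * ‖RR δ T c v t‖ ^ 4) +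
      (k / (2 * e) * (∫ t, PW (WW δ T) (t - τ) * Dh (δ / 128) (XX δ T c) (t + u)) +
      C2 / (2 * e * k ^ 6) * (∫ t, PW (WW δ T) (t - τ) * (4 + |t + u|) ^ s)) := by
    simp only [hF]
    have i23 : Integrable (fun t => k / (2 * e) * (PW (WW δ T) (t - τ) * Dh (δ / 128) (XX δ T c) (t + u)) +
      C2 / (2 * e * k ^ 6) * (PW (WW δ T) (t - τ) * (4 + |t + u|) ^ s)) :=
      (hDi.const_mul _).add (hPi.const_mul _)
    rw [integral_add (hm4i.const_mul _) i23,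
      integral_add (hDi.const_mul _) (hPi.const_mul _), integral_const_mul, integral_const_mul, integral_const_mul]
  -- the three bounds
  set S : ℝ := T ^ s with hSd
  have hS0 : 0 < S := by positivity
  have b1 : e / 2 * (∫ t, PW (WW δ T) (t - τ) * ‖RR δ T c v t‖ ^ 4) ≤ E * S / 2 * V := by
    calc e / 2 * (∫ t, PW (WW δ T) (t - τ) * ‖RR δ T c v t‖ ^ 4) ≤ e / 2 * (S * V ^ 2) := by
          refine mul_le_mul_of_nonneg_left (hm4v.trans ?_) (by positivity)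
          gcongr
      _ = _ := by
          rw [he]; field_simp
  have b2 : k / (2 * e) * (∫ t, PW (WW δ T) (t - τ) * Dh (δ / 128) (XX δ T c) (t + u)) ≤ E * S * V := by
    calc k / (2 * e) * (∫ t, PW (WW δ T) (t - τ) * Dh (δ / 128) (XX δ T c) (t + u))
        ≤ k / (2 * e) * (2 * S * (E ^ 2 / k)) := mul_le_mul_of_nonneg_left hDv' (by positivity)
      _ = _ := by
          rw [he]
          field_simp
  have b3 : C2 / (2 * e * k ^ 6) * (∫ t, PW (WW δ T) (t - τ) * (4 + |t + u|) ^ s) ≤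
      C1 * C2 / 2 * (E * S) * V := by
    calc C2 / (2 * e * k ^ 6) * (∫ t, PW (WW δ T) (t - τ) * (4 + |t + u|) ^ s)
        ≤ C2 / (2 * e * k ^ 6) * (C1 * S) := mul_le_mul_of_nonneg_left hPv (by positivity)
      _ = C2 / (2 * e * k ^ 6) * (C1 * S) * (E ^ 2 * k ^ 6) := by rw [hEk6, mul_one]
      _ = _ := by
          rw [he]
          field_simp
  have hfin : (2 + C1 * C2 / 2) * (E * S) ≤ T ^ (-(δ / 2000)) := by
    calc (2 + C1 * C2 / 2) * (E * S) ≤ T ^ (δ / 10000) * (E * S) := by gcongr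
      _ = T ^ (δ / 10000 + (-(3 * δ / 4096) + s)) := by rw [hSd, hE, ← Real.rpow_add hT0, ← Real.rpow_add hT0]
      _ ≤ _ := Real.rpow_le_rpow_of_exponent_le hTg1 (by rw [hs]; linarith)
  calc ∫ t, wt δ T c v τ t * Dh (δ / 128) (XX δ T c) (t + u) ≤ ∫ t, F t := integral_mono hint hFi hle
    _ ≤ E * S / 2 * V + (E * S * V + C1 * C2 / 2 * (E * S) * V) := by
        rw [hFv]
        exact add_le_add b1 (add_le_add b2 b3)
    _ ≤ ((2 + C1 * C2 / 2) * (E * S)) * V := by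
        have : 0 < E * S * V := by positivity
        nlinarith
    _ ≤ _ := by gcongr

open Classical in
/-- Z6: zeros with `|β - 1/2| ≥ δ/128`, from `deep`, R7, Z2 -/
theorem mDeep (hδ : 0 < δ) (hδ1 : δ ≤ 1 / 32) : ∃ c0 T0 : ℝ, ∀ T, T0 ≤ T → ∀ c, Adm δ c0 T c → ∀ v : ℝ,
    v ^ 2 = (1 - 4 * δ) * c →
    ∀ τ u : ℝ, |τ| ≤ 2 * T → |u| ≤ T →
    Integrable (fun t => wt δ T c v τ t * ∑' ρ : ZS, mx ρ * (if |(ρ : ℂ).re - 1 / 2| < δ / 128 then 0 else
      1 / (1 + zb (XX δ T c) (t + u) ρ ^ 2))) ∧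
    ∫ t, wt δ T c v τ t * ∑' ρ : ZS, mx ρ * (if |(ρ : ℂ).re - 1 / 2| < δ / 128 then 0 else
      1 / (1 + zb (XX δ T c) (t + u) ρ ^ 2)) ≤ T ^ (-(δ / 2000)) * VV δ T c v := mDeep_aux hδ hδ1

end Pool.Agent.Helper53.UV
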